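import Pool.Agent.Lib.MP_eee7a8_ag.TB.IfaceB

/-!
# TAGBR: module POS (positions along the axis of a hyperbolic element), from RHO
-/

open Matrix

namespace Pool.Agent.Lib.MP_eee7a8_ag.TB.PB.H81

theorem sgn_sub {L a b : ℝ} (hL : 0 < L) (ha : 0 < a) (hb : 0 < b) :
    SignType.sign (Real.log a / L - Real.log b / L) = SignType.sign (a - b) := by
  rcases lt_trichotomy a b with h | h | h
  · rw [sign_neg (sub_neg.2 h), sign_neg]
    exact sub_neg.2 (div_lt_div_of_pos_right (Real.log_lt_log ha h) hL)
  · rw [h]; simp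
  · rw [sign_pos (sub_pos.2 h), sign_pos]
    exact sub_pos.2 (div_lt_div_of_pos_right (Real.log_lt_log hb h) hL)

theorem neg_iff_of_sign {x y : ℝ} (h : SignType.sign x = SignType.sign y) :
    x < 0 ↔ y < 0 := by
  rw [← sign_eq_neg_one_iff, ← sign_eq_neg_one_iff, h]

theorem pos (h1 : RHO_S) : POS_S := by
  intro h ht
  obtain ⟨hl, hb, hr, hs, hm, hi, hc⟩ := h1 h ht
  have hL : 0 < 2 * Real.log (lmd h) := by
    have := Real.log_pos hl
    linarith
  obtain ⟨E, hE⟩ : ∃ E : Cusp → ℝ, E = fun v => |rho h v| := ⟨_, rfl⟩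
  have hE0 : ∀ v, 0 < E v := by
    intro v; rw [hE]; exact abs_pos.2 (hr v)
  have hN : ∀ u, side h u < 0 → rho h u = E u := by
    intro u hu
    rw [hE]
    exact (abs_of_pos ((hs u).1 hu)).symm
  have hP : ∀ v, 0 < side h v → rho h v = - E v := by
    intro v hv
    have h3 : ¬ 0 < rho h v := fun h4 => by
      have := (hs v).2 h4
      omega
    have h4 : rho h v < 0 := lt_of_le_of_ne (not_lt.1 h3) (hr v)
    rw [hE]
    simp only
    rw [abs_of_neg h4, neg_neg]
  have hsg : ∀ a b, SignType.sign (PB.pos h a - PB.pos h b) = SignType.sign (E a - E b) := by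
    intro a b
    have h5 : PB.pos h a = Real.log (E a) / (2 * Real.log (lmd h)) := by rw [hE]; rfl
    have h6 : PB.pos h b = Real.log (E b) / (2 * Real.log (lmd h)) := by rw [hE]; rfl
    rw [h5, h6]
    exact sgn_sub hL (hE0 a) (hE0 b)
  refine ⟨?_, ?_, ?_, ?_, ?_, ?_, ?_⟩
  · intro v
    unfold PB.pos
    rw [hm, abs_mul, abs_of_pos (pow_pos (by linarith) 2),
      Real.log_mul (ne_of_gt (pow_pos (by linarith) 2)) (abs_ne_zero.2 (hr v)), Real.log_pow]
    have hL' : Real.log (lmd h) ≠ 0 := ne_of_gt (Real.log_pos hl)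
    push_cast
    field_simp
    ring
  · intro u u' v v' hu hu' hv hv'
    rw [hc, hN u hu, hN u' hu', hP v hv, hP v' hv']
    apply neg_iff_of_sign
    have e : (E u - E u') * (-E v - E u') * ((E u - -E v') * (-E v - -E v')) =
        ((E u - E u') * (E v - E v')) * ((E v + E u') * (E u + E v')) := by ring
    have p : 0 < (E v + E u') * (E u + E v') :=
      mul_pos (add_pos (hE0 _) (hE0 _)) (add_pos (hE0 _) (hE0 _))
    rw [e, sign_mul, sign_pos p, mul_one, sign_mul, sign_mul, hsg, hsg]
  · intro u u' w v hu hu' hw hv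
    rw [hc, hN u hu, hN u' hu', hP v hv, hN w hw]
    apply neg_iff_of_sign
    have e : (E u - E w) * (E u' - E w) * ((E u - -E v) * (E u' - -E v)) =
        ((E w - E u) * (E w - E u')) * ((E u + E v) * (E u' + E v)) := by ring
    have p : 0 < (E u + E v) * (E u' + E v) :=
      mul_pos (add_pos (hE0 _) (hE0 _)) (add_pos (hE0 _) (hE0 _))
    rw [e, sign_mul, sign_pos p, mul_one, sign_mul, sign_mul, hsg, hsg]
  · intro v v' w u hv hv' hw hu
    rw [hc, hN u hu, hP v' hv', hP v hv, hP w hw]
    apply neg_iff_of_sign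
    have e : (-E v - -E w) * (-E v' - -E w) * ((-E v - E u) * (-E v' - E u)) =
        ((E w - E v) * (E w - E v')) * ((E v + E u) * (E v' + E u)) := by ring
    have p : 0 < (E v + E u) * (E v' + E u) :=
      mul_pos (add_pos (hE0 _) (hE0 _)) (add_pos (hE0 _) (hE0 _))
    rw [e, sign_mul, sign_pos p, mul_one, sign_mul, sign_mul, hsg, hsg]
  · intro u u' v v' hu hu' hv hv'
    rw [hc, hN u hu, hN u' hu', hP v hv, hP v' hv', not_lt]
    have q : ∀ a b : Cusp, 0 < E a - -E b := fun a b => by
      have := hE0 a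
      have := hE0 b
      linarith
    exact le_of_lt (mul_pos (mul_pos (q _ _) (q _ _)) (mul_pos (q _ _) (q _ _)))
  · intro a b hab hp
    have h7 := hsg a b
    rw [hp, sub_self, sign_zero] at h7
    have h8 : E a = E b := by
      have := sign_eq_zero_iff.1 h7.symm
      linarith
    apply hi
    rcases lt_or_ge (side h a) 0 with ha | ha
    · have hb' : side h b < 0 := by
        by_contra hcon
        have := mul_nonpos_of_nonpos_of_nonneg (le_of_lt ha) (not_lt.1 hcon)
        linarith
      rw [hN a ha, hN b hb', h8]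
    · have ha' : 0 < side h a := by
        rcases eq_or_lt_of_le ha with h9 | h9
        · rw [← h9] at hab; simp at hab
        · exact h9
      have hb' : 0 < side h b := (pos_iff_pos_of_mul_pos hab).1 ha'
      rw [hP a ha', hP b hb', h8]
  · intro a b c d hab hac had
    rw [hc]
    apply neg_iff_of_sign
    have key : ∀ x y, SignType.sign (E x - E y) = SignType.sign (PB.pos h x - PB.pos h y) :=
      fun x y => (hsg x y).symm
    rcases lt_or_ge (side h a) 0 with ha | ha
    · have q : ∀ b, 0 < side h a * side h b → side h b < 0 := by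
        intro b hb'
        by_contra hcon
        have := mul_nonpos_of_nonpos_of_nonneg (le_of_lt ha) (not_lt.1 hcon)
        linarith
      rw [hN a ha, hN b (q b hab), hN c (q c hac), hN d (q d had)]
      rw [sign_mul, sign_mul, sign_mul, key, key, key, key, sign_mul, sign_mul, sign_mul]
    · have ha' : 0 < side h a := by
        rcases eq_or_lt_of_le ha with h9 | h9
        · rw [← h9] at hab; simp at hab
        · exact h9
      have q : ∀ b, 0 < side h a * side h b → 0 < side h b := fun b hb' =>
        (pos_iff_pos_of_mul_pos hb').1 ha'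
      rw [hP a ha', hP b (q b hab), hP c (q c hac), hP d (q d had)]
      have e : (-E a - -E c) * (-E b - -E c) * ((-E a - -E d) * (-E b - -E d)) =
        (E a - E c) * (E b - E c) * ((E a - E d) * (E b - E d)) := by ring
      rw [e]
      rw [sign_mul, sign_mul, sign_mul, key, key, key, key, sign_mul, sign_mul, sign_mul]

end Pool.Agent.Lib.MP_eee7a8_ag.TB.PB.H81
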