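import Pool.Agent.Lib.MP_eee7a8_ag.TB.IfaceB

/-!
# TAGBR: module POSI (positions for the inverse element), from RHO
-/

open Matrix

namespace Pool.Agent.Lib.MP_eee7a8_ag.TB.PB.H81

theorem inv_entries (h : SLZ) : (h⁻¹).1 0 0 = h.1 1 1 ∧ (h⁻¹).1 0 1 = -h.1 0 1 ∧
    (h⁻¹).1 1 0 = -h.1 1 0 ∧ (h⁻¹).1 1 1 = h.1 0 0 := by
  simp only [Matrix.SpecialLinearGroup.coe_inv, Matrix.adjugate_fin_two, Matrix.of_apply,
    Matrix.cons_val', Matrix.cons_val_zero, Matrix.cons_val_one, Matrix.cons_val_fin_one,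
    and_self]

theorem sqd_inv (h : SLZ) : sqd h⁻¹ = sqd h := by
  unfold sqd; rw [trace_inv]

theorem lmd_inv (h : SLZ) : lmd h⁻¹ = lmd h := by
  unfold lmd; rw [trace_inv, sqd_inv]

theorem posi (h1 : RHO_S) : POSI_S := by
  intro h ht
  obtain ⟨hl, hb, hr, hs, hm, hi, hc⟩ := h1 h ht
  obtain ⟨e1, e2, e3, e4⟩ := inv_entries h
  have hq : (h.1 1 0 : ℝ) ≠ 0 ∧ sqd h ≠ 0 := by
    have := hb infty
    unfold be at this
    constructor
    · intro h0; apply this; rw [h0]; simp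
    · intro h0; apply this; rw [h0]; simp
  obtain ⟨hr0, hq0⟩ := hq
  have hD : (0 : ℝ) < sqd h ^ 2 / (h.1 1 0 : ℝ) ^ 2 :=
    div_pos (by positivity) (by positivity)
  refine ⟨Real.log (sqd h ^ 2 / (h.1 1 0 : ℝ) ^ 2) / (2 * Real.log (lmd h)), fun v => ?_⟩
  have hal : al h⁻¹ v = -(sqd h / (h.1 1 0 : ℝ)) * be h v := by
    unfold al be
    rw [sqd_inv, e1, e3, e4]
    push_cast
    field_simp
    ring
  have hbe : be h⁻¹ v = ((h.1 1 0 : ℝ) / sqd h) * al h v := by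
    unfold al be
    rw [sqd_inv, e1, e3, e4]
    push_cast
    field_simp
    ring
  have hal0 : al h v ≠ 0 := by
    intro h0
    apply hr v
    unfold rho; rw [h0, zero_div]
  have hrho : |rho h⁻¹ v| = (sqd h ^ 2 / (h.1 1 0 : ℝ) ^ 2) / |rho h v| := by
    rw [← abs_of_pos hD, ← abs_div, ← abs_neg]
    congr 1
    unfold rho
    rw [hal, hbe]
    have := hb v
    field_simp
  unfold PB.pos
  rw [hrho, lmd_inv, Real.log_div (ne_of_gt hD) (abs_ne_zero.2 (hr v)), sub_div]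

end Pool.Agent.Lib.MP_eee7a8_ag.TB.PB.H81
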