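import Pool.Agent.Lib.MP_eee7a8_ag.TB.IfaceB

/-!
# TAGBR: module RELOK (chains and nondegenerate loops), from PATHX and POS
-/

open Matrix

namespace Pool.Agent.Lib.MP_eee7a8_ag.TB.PB.H81

theorem pos_pow {h : SLZ} (hp : ∀ v, PB.pos h (h • v) = PB.pos h v + 1) (n : ℕ) (v : Cusp) :
    PB.pos h (h ^ n • v) = PB.pos h v + n := by
  induction n with
  | zero => rw [pow_zero, one_smul]; simp
  | succ n ih =>
    rw [pow_succ', mul_smul, hp, ih]; push_cast; ring

theorem side_pow (h : SLZ) (n : ℕ) (v : Cusp) : side h (h ^ n • v) = side h v := by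
  induction n with
  | zero => rw [pow_zero, one_smul]
  | succ n ih => rw [pow_succ', mul_smul, side_smul_self, ih]

theorem relok (hX : PATHX_S) (hP : POS_S) : RELOK_S := by
  intro hT G hG e he
  obtain ⟨t1, t2, t3, t4, t5, t6⟩ := hT G hG e he
  have hinv : RelInv G (Sim G e) := by
    intro g hg x y
    constructor
    · intro h
      have := t1 g⁻¹ (G.inv_mem hg) _ _ h
      rwa [inv_smul_smul, inv_smul_smul] at this
    · exact t1 g hg x y
  refine ⟨hinv, ?_⟩
  intro h hh htr hn hd
  obtain ⟨p1, p2, p3, p4, p5, p6, p7⟩ := hP h htr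
  have hside : ∀ z x, Sim G e z x → 0 < side h z * side h x := by
    intro z x hzx
    exact t5 h hn z x hzx (fun a => side_ne_zero (lt_of_lt_of_le htr (le_abs_self _)) a)
  have key : ∀ z x, Sim G e z x → ¬ (PB.pos h x + 1 < PB.pos h z) := by
    intro z x hzx hlt
    have s1 := hside z x hzx
    have hx0 : side h x ≠ 0 := side_ne_zero (lt_of_lt_of_le htr (le_abs_self _)) x
    have hcr : Cross x z (h • x) (h • z) := by
      refine (p7 x z (h • x) (h • z) ?_ ?_ ?_).2 ?_
      · rw [mul_comm]; exact s1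
      · rw [side_smul_self]; exact mul_self_pos.2 hx0
      · rw [side_smul_self, mul_comm]; exact s1
      · rw [p1, p1]
        have a1 : PB.pos h x - (PB.pos h x + 1) < 0 := by linarith
        have a2 : 0 < PB.pos h z - (PB.pos h x + 1) := by linarith
        have a3 : PB.pos h x - (PB.pos h z + 1) < 0 := by linarith
        have a4 : PB.pos h z - (PB.pos h z + 1) < 0 := by linarith
        exact mul_neg_of_neg_of_pos (mul_neg_of_neg_of_pos a1 a2) (mul_pos_of_neg_of_neg a3 a4)
    have hs := Relation.EqvGen.symm _ _ hzx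
    exact hd x (hX hT G hG e he x z (h • x) (h • z) hcr hs (t1 h hh _ _ hs))
  have hpos : ∀ z x, Sim G e z x → |PB.pos h z - PB.pos h x| ≤ 1 := by
    intro z x hzx
    rw [abs_le]
    constructor
    · by_contra hcon
      apply key x z (Relation.EqvGen.symm _ _ hzx)
      linarith
    · by_contra hcon
      apply key z x hzx
      linarith
  refine ⟨⟨hside, hpos⟩, ?_⟩
  intro a n hn1 hs
  rcases Nat.lt_or_ge 1 n with h2 | h2
  · have h3 := hpos _ _ hs
    rw [pos_pow p1] at h3
    have h4 : (2 : ℝ) ≤ (n : ℝ) := by exact_mod_cast h2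
    have h5 := (abs_le.1 h3).1
    linarith
  · have h6 : n = 1 := by omega
    rw [h6, pow_one] at hs
    exact hd a hs

end Pool.Agent.Lib.MP_eee7a8_ag.TB.PB.H81
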