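import Pool.Agent.Lib.MP_eee7a8_ag.TB.IfaceB

/-!
# TAGBR: module TRTOP (the top part of the trace), from STOP, X2C, STRIP, TOPMUL, AXFAM, DEL, XINV
-/

open Matrix

namespace Pool.Agent.Lib.MP_eee7a8_ag.TB.PB.H81

theorem w_of_part_single {ι : Type} (w : (ι → ℤ) → ℤ) (d : ℤ) (f : LP ι) (m : ι → ℤ)
    (h : part w d f = .single m 1) : w m = d := by
  by_contra hne
  have h1 : (part w d f).coeff m = 1 := by
    rw [h, AddMonoidAlgebra.coeff_single, Finsupp.single_eq_same]
  have h2 : (part w d f).coeff m = 0 := by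
    classical
    unfold part
    change (f.coeff.filter _) m = 0
    exact Finsupp.filter_apply_neg _ _ hne
  omega

theorem part_add' {ι : Type} (w : (ι → ℤ) → ℤ) (d : ℤ) (f g : LP ι) :
    part w d (f + g) = part w d f + part w d g := by
  classical
  unfold part
  rw [AddMonoidAlgebra.coeff_add, Finsupp.filter_add, AddMonoidAlgebra.ofCoeff_add]

theorem part_single' {ι : Type} (w : (ι → ℤ) → ℤ) (d : ℤ) (m : ι → ℤ) (c : ℕ) (h : w m = d) :
    part w d (AddMonoidAlgebra.single m c) = AddMonoidAlgebra.single m c := by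
  classical
  unfold part
  rw [AddMonoidAlgebra.coeff_single, Finsupp.filter_single_of_pos (fun m => w m = d) h,
    AddMonoidAlgebra.ofCoeff_single]

theorem pair_add' {ι : Type} [Fintype ι] (T : Fam ι) (m m' : ι → ℤ) (X : Cusp → Cusp → ℤ) :
    pair T (m + m') X = pair T m X + pair T m' X := by
  unfold pair
  rw [← Finset.sum_add_distrib]
  exact Finset.sum_congr rfl (fun i _ => by rw [Pi.add_apply]; ring)

theorem pair_neg' {ι : Type} [Fintype ι] (T : Fam ι) (m : ι → ℤ) (X : Cusp → Cusp → ℤ) :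
    pair T (-m) X = -pair T m X := by
  unfold pair
  rw [← Finset.sum_neg_distrib]
  exact Finset.sum_congr rfl (fun i _ => by rw [Pi.neg_apply]; ring)

theorem trtop (hSt : STOP_S) (hX : X2C_S) (hSp : STRIP_S) (hTm : TOPMUL_S) (hA : AXFAM_S)
    (hD : DEL_S) (hI : XINV_S) : TRTOP_S := by
  intro G κ ι _ _ Λ T P j m k p hT hP hdeg hsh hk hp
  obtain ⟨s⟩ := hSp G ι (Finite.of_fintype ι) T (Λ.h j) hT (Λ.loop j).mem (Λ.tr j)
  obtain ⟨hfam, hres, -⟩ := hA G κ inferInstance Λ
  obtain ⟨d1, d2, d3, d4⟩ := hD G ι inferInstance T hT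
  have hrel : RelInv G Eq := fun g _ x y => smul_left_cancel_iff g
  obtain ⟨i1, i2⟩ := hI G Λ.strands Eq hfam.toSFam hrel
  have hL := s.left 0
  have hR := s.right 0
  have hE := s.edge 0
  have htrp := hp (s.u 0) (s.v 0) hE (mul_neg_of_neg_of_pos hL hR)
  obtain ⟨X, hXdef⟩ : ∃ X, X = XX Λ.strands Eq := ⟨_, rfl⟩
  obtain ⟨δ, hδ⟩ : ∃ δ, δ = T.del G (s.u 0) (s.v 0) := ⟨_, rfl⟩
  obtain ⟨d, hd⟩ : ∃ d, d = X (s.u 0) (s.v 0) := ⟨_, rfl⟩
  have hwd : pair T δ X = d := by
    rw [hδ, hd, hXdef]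
    exact d4 _ i1 i2 _ _ hE
  -- the crossing numbers with the translates
  have hX2 : ∀ n : ℤ, X (s.u 0) (Λ.h j ^ n • s.v 0) = d := by
    intro n
    rw [hd, hXdef]
    refine hX G Λ.strands Eq (Λ.h j) hfam.toSFam hrel (Λ.loop j).mem (Λ.tr j)
      (hres (Λ.h j) ⟨j, Λ.mem_self j⟩) ?_ _ _ n hL hR
    rintro z x rfl
    exact mul_self_pos.2 (side_ne_zero (lt_of_lt_of_le (Λ.tr j) (le_abs_self _)) z)
  have hst : ∀ n : ℤ, part (fun m => pair T m X) d (P (s.u 0) (Λ.h j ^ n • s.v 0)) =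
      .single (δ - n • m) 1 := by
    intro n
    have h1 := hSt G κ ι inferInstance inferInstance Λ T P j m s hT hP hdeg hsh n
    rw [← hXdef, ← hδ, hX2] at h1
    exact h1
  have hside : ∀ n : ℤ, s.u 0 ≠ Λ.h j ^ n • s.v 0 := by
    intro n he
    have h1 : ∀ (g : SLZ) (n : ℕ) (v : Cusp), side g (g ^ n • v) = side g v := by
      intro g n v
      induction n with
      | zero => rw [pow_zero, one_smul]
      | succ n ih => rw [pow_succ', mul_smul, side_smul_self, ih]
    have h2 : side (Λ.h j) (Λ.h j ^ n • s.v 0) = side (Λ.h j) (s.v 0) := by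
      obtain ⟨n', rfl | rfl⟩ := n.eq_nat_or_neg
      · rw [zpow_natCast, h1]
      · have h3 := h1 (Λ.h j)⁻¹ n' (s.v 0)
        rw [side_inv, side_inv] at h3
        rw [_root_.zpow_neg, zpow_natCast, ← inv_pow]
        linarith
    rw [← he] at h2
    linarith
  have hsup : ∀ n : ℤ, ∀ m' ∈ (P (s.u 0) (Λ.h j ^ n • s.v 0)).coeff.support,
      pair T m' X ≤ d := by
    intro n m' hm'
    have h1 := hdeg _ _ (hside n) m' hm'
    rwa [← hXdef, hX2] at h1
  -- the pairing of the shear vector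
  have hm0 : pair T m X = 0 := by
    have h1 := w_of_part_single _ _ _ _ (hst 1)
    have h2 : pair T (δ - (1 : ℤ) • m) X = pair T δ X - pair T m X := by
      rw [one_smul, sub_eq_add_neg, pair_add', pair_neg', sub_eq_add_neg]
    rw [h2, hwd] at h1
    linarith
  -- the top part of the product
  have hz1 : Λ.h j ^ k • s.v 0 = Λ.h j ^ (k : ℤ) • s.v 0 := by rw [zpow_natCast]
  have hz2 : (Λ.h j)⁻¹ ^ k • s.v 0 = Λ.h j ^ (-(k : ℤ)) • s.v 0 := by
    rw [_root_.zpow_neg, zpow_natCast, inv_pow]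
  rw [hz1, hz2, ← hδ] at htrp
  have hadd : ∀ m m' : ι → ℤ, (fun m => pair T m X) (m + m') =
      (fun m => pair T m X) m + (fun m => pair T m X) m' := fun m m' => pair_add' T m m' X
  have hsupp : ∀ m' ∈ (p * AddMonoidAlgebra.single δ 1).coeff.support, pair T m' X ≤ d := by
    intro m' hm'
    rw [htrp, AddMonoidAlgebra.coeff_add] at hm'
    classical
    rcases Finset.mem_union.1 (Finsupp.support_add hm') with h | h
    · exact hsup _ _ h
    · exact hsup _ _ h
  have hone : ∀ m' ∈ (AddMonoidAlgebra.single (-δ) 1 : LP ι).coeff.support,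
      pair T m' X ≤ -d := by
    intro m' hm'
    rw [AddMonoidAlgebra.coeff_single] at hm'
    have h1 := Finset.mem_singleton.1 (Finsupp.support_single_subset hm')
    rw [h1, pair_neg', hwd]
  have hpeq : p * AddMonoidAlgebra.single δ 1 * AddMonoidAlgebra.single (-δ) 1 = p := by
    rw [mul_assoc, AddMonoidAlgebra.single_mul_single, add_neg_cancel, mul_one,
      ← AddMonoidAlgebra.one_def, mul_one]
  obtain ⟨t1, t2⟩ := hTm ι inferInstance (fun m => pair T m X) hadd
    (p * AddMonoidAlgebra.single δ 1) (AddMonoidAlgebra.single (-δ) 1) d (-d) hsupp hone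
  rw [hpeq, add_neg_cancel] at t1 t2
  rw [← hXdef]
  refine ⟨hm0, t1, ?_⟩
  rw [t2, htrp, part_add', hst, hst, part_single' _ _ _ _ (by simp only [pair_neg', hwd]),
    add_mul, AddMonoidAlgebra.single_mul_single, AddMonoidAlgebra.single_mul_single]
  have e1 : δ - (k : ℤ) • m + -δ = -((k : ℤ) • m) := by abel
  have e2 : δ - (-(k : ℤ)) • m + -δ = (k : ℤ) • m := by rw [neg_smul]; abel
  rw [e1, e2, mul_one, add_comm]

end Pool.Agent.Lib.MP_eee7a8_ag.TB.PB.H81
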