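import Pool.Agent.Lib.MP_eee7a8_ag.TB.IfaceB

/-!
# TAGBR: module XLX (`XL`, `XF` and `XX`), from FIN (finiteness is needed for the disjoint union)
-/

open Matrix

namespace Pool.Agent.Lib.MP_eee7a8_ag.TB.PB.H81

/-- The form and the trace determine the matrix. -/
theorem sideF_inj {k k' : SLZ} (h1 : sideF k = sideF k') (h2 : k.1.trace = k'.1.trace) :
    k = k' := by
  rw [Matrix.trace_fin_two, Matrix.trace_fin_two] at h2
  have e1 : k.1 1 0 = k'.1 1 0 := congrArg QF.a h1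
  have e2 : k.1 1 1 - k.1 0 0 = k'.1 1 1 - k'.1 0 0 := congrArg QF.b h1
  have e3 : -k.1 0 1 = -k'.1 0 1 := congrArg QF.c h1
  apply Matrix.SpecialLinearGroup.ext
  intro i j
  have : k.1 i j = k'.1 i j := by
    fin_cases i <;> fin_cases j
    · change k.1 0 0 = k'.1 0 0
      omega
    · change k.1 0 1 = k'.1 0 1
      omega
    · exact e1
    · change k.1 1 1 = k'.1 1 1
      omega
  exact this

theorem tr_eq_of_sideF {k k' : SLZ} (h1 : sideF k = sideF k') (h2 : 0 < k.1.trace)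
    (h3 : 0 < k'.1.trace) : k.1.trace = k'.1.trace := by
  have h4 : (sideF k).disc = (sideF k').disc := by rw [h1]
  rw [disc_sideF, disc_sideF] at h4
  nlinarith

/-- The last clause of `Meets` is automatic for the relation `Eq`. -/
theorem meets_eq (f : QF) (x y : Cusp) : f.Meets Eq x y ↔ f.ev x * f.ev y < 0 := by
  constructor
  · exact fun h => h.1
  · intro h
    refine ⟨h, fun z hz => ⟨?_, ?_⟩⟩
    · rintro rfl; rw [hz, zero_mul] at h; exact lt_irrefl _ h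
    · rintro rfl; rw [hz, mul_zero] at h; exact lt_irrefl _ h

/-- The axes of the conjugates of `h` separating `a` and `b`. -/
def conjSet (G : Subgroup SLZ) (h : SLZ) (a b : Cusp) : Set SLZ :=
  {k : SLZ | (∃ g ∈ G, k = g * h * g⁻¹) ∧ side k a * side k b < 0}

theorem conjSet_tr {G : Subgroup SLZ} {h : SLZ} {a b : Cusp} {k : SLZ}
    (hk : k ∈ conjSet G h a b) : k.1.trace = h.1.trace := by
  obtain ⟨⟨g, _, rfl⟩, _⟩ := hk
  exact trace_conj _ _

theorem injOn_conjSet (G : Subgroup SLZ) (h : SLZ) (a b : Cusp) :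
    Set.InjOn sideF (conjSet G h a b) := by
  intro k hk k' hk' he
  exact sideF_inj he (by rw [conjSet_tr hk, conjSet_tr hk'])

theorem image_conjSet (G : Subgroup SLZ) (h : SLZ) (a b : Cusp) :
    sideF '' conjSet G h a b =
      {f | f ∈ {f | ∃ g ∈ G, f = sideF (g * h * g⁻¹)} ∧ f.Meets Eq a b} := by
  ext f
  constructor
  · rintro ⟨k, ⟨⟨g, hg, rfl⟩, hs⟩, rfl⟩
    refine ⟨⟨g, hg, rfl⟩, ?_⟩
    rw [meets_eq, ev_sideF, ev_sideF]; exact hs
  · rintro ⟨⟨g, hg, rfl⟩, hm⟩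
    refine ⟨_, ⟨⟨g, hg, rfl⟩, ?_⟩, rfl⟩
    rwa [meets_eq, ev_sideF, ev_sideF] at hm

theorem XL_eq (G : Subgroup SLZ) (h : SLZ) (a b : Cusp) :
    XL G h a b = XX {f | ∃ g ∈ G, f = sideF (g * h * g⁻¹)} Eq a b := by
  have h1 : XL G h a b = ((conjSet G h a b).ncard : ℤ) := rfl
  have h2 : XX {f | ∃ g ∈ G, f = sideF (g * h * g⁻¹)} Eq a b =
    (({f | f ∈ {f | ∃ g ∈ G, f = sideF (g * h * g⁻¹)} ∧ f.Meets Eq a b}).ncard : ℤ) := rfl
  rw [h1, h2, ← image_conjSet, (injOn_conjSet G h a b).ncard_image]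

theorem XL_neg (G : Subgroup SLZ) (h : SLZ) (a b : Cusp) : XL G (-h) a b = XL G h a b := by
  have h1 : XL G h a b = ((conjSet G h a b).ncard : ℤ) := rfl
  have h2 : XL G (-h) a b = ((conjSet G (-h) a b).ncard : ℤ) := rfl
  have h3 : (fun k : SLZ => -k) '' conjSet G h a b = conjSet G (-h) a b := by
    ext k
    constructor
    · rintro ⟨k, ⟨⟨g, hg, rfl⟩, hs⟩, rfl⟩
      refine ⟨⟨g, hg, ?_⟩, ?_⟩
      · simp only [mul_neg, neg_mul]
      · simp only
        rw [side_neg, side_neg]; linarith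
    · rintro ⟨⟨g, hg, rfl⟩, hs⟩
      refine ⟨g * h * g⁻¹, ⟨⟨g, hg, rfl⟩, ?_⟩, ?_⟩
      · have e : g * -h * g⁻¹ = -(g * h * g⁻¹) := by simp only [mul_neg, neg_mul]
        rw [e, side_neg, side_neg] at hs
        linarith
      · simp only [mul_neg, neg_mul]
  rw [h1, h2, ← h3, Set.ncard_image_of_injective _ neg_injective]

theorem sfam_conj (G : Subgroup SLZ) (h : SLZ) (ht : 2 < h.1.trace) :
    SFam G {f | ∃ g ∈ G, f = sideF (g * h * g⁻¹)} where
  pos := by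
    rintro f ⟨g, _, rfl⟩
    rw [disc_sideF, trace_conj]
    nlinarith
  inv := by
    rintro g hg f ⟨g', hg', rfl⟩
    refine ⟨g * g', G.mul_mem hg hg', ?_⟩
    rw [act_sideF]
    congr 1
    group
  bdd := by
    refine ⟨h.1.trace ^ 2 - 4, ?_⟩
    rintro f ⟨g, _, rfl⟩
    rw [disc_sideF, trace_conj]

theorem xlx (hF : FIN_S) : XLX_S := by
  intro G
  refine ⟨fun h _ a b => ⟨XL_eq G h a b, XL_neg G h a b⟩, ?_⟩
  intro κ _ Λ a b
  have h0 : ∀ j, (conjSet G (Λ.h j) a b).Finite := by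
    intro j
    have h1 := hF G _ (sfam_conj G (Λ.h j) (Λ.tr j)) a b
    apply Set.Finite.of_finite_image _ (injOn_conjSet G (Λ.h j) a b)
    rw [image_conjSet]
    apply h1.subset
    rintro f ⟨hf, hm⟩
    exact ⟨hf, hm.1⟩
  have h1 : ∑ j, XL G (Λ.h j) a b =
      ((∑ j, (conjSet G (Λ.h j) a b).ncard : ℕ) : ℤ) := by
    push_cast
    rfl
  have hd : Pairwise (fun i j => Disjoint (conjSet G (Λ.h i) a b) (conjSet G (Λ.h j) a b)) := by
    intro i j hij
    rw [Set.disjoint_left]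
    rintro k ⟨⟨g, hg, rfl⟩, _⟩ ⟨⟨g', hg', he⟩, _⟩
    have h2 := (Λ.disj i j hij (g⁻¹ * g') (G.mul_mem (G.inv_mem hg) hg')).2.1
    apply h2
    have : Λ.h i = g⁻¹ * (g * Λ.h i * g⁻¹) * g := by group
    rw [this, he]
    group
  have h3 : Λ.strands = {f | ∃ j, ∃ g ∈ G, f = sideF (g * Λ.h j * g⁻¹)} := rfl
  have h4 : sideF '' (⋃ j, conjSet G (Λ.h j) a b) = {f | f ∈ Λ.strands ∧ f.Meets Eq a b} := by
    rw [Set.image_iUnion, h3]
    ext f
    simp only [Set.mem_iUnion]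
    constructor
    · rintro ⟨j, hj⟩
      rw [image_conjSet] at hj
      exact ⟨⟨j, hj.1⟩, hj.2⟩
    · rintro ⟨⟨j, hj⟩, hm⟩
      refine ⟨j, ?_⟩
      rw [image_conjSet]
      exact ⟨hj, hm⟩
  have h5 : Set.InjOn sideF (⋃ j, conjSet G (Λ.h j) a b) := by
    intro k hk k' hk' he
    rw [Set.mem_iUnion] at hk hk'
    obtain ⟨j, hj⟩ := hk
    obtain ⟨j', hj'⟩ := hk'
    apply sideF_inj he
    apply tr_eq_of_sideF he
    · rw [conjSet_tr hj]
      have := Λ.tr j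
      omega
    · rw [conjSet_tr hj']
      have := Λ.tr j'
      omega
  have h6 : XX Λ.strands Eq a b = (({f | f ∈ Λ.strands ∧ f.Meets Eq a b}).ncard : ℤ) := rfl
  rw [h1, h6, ← h4, h5.ncard_image, Set.ncard_iUnion_of_finite h0 hd, finsum_eq_sum_of_fintype]

end Pool.Agent.Lib.MP_eee7a8_ag.TB.PB.H81
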